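import Pool.Agent.Lib.MP_1ef7cf_nt_f.GC

/-!
# The square root condition follows from Stark's conditions 1-3, for all moduli

`StarkTate σ₂ m` (in `Pool.Agent.Lib.MP_1ef7cf_nt.SDefs`) is the assertion of Q1 for the real
quadratic field `K` and the modulus `m`; `Stark σ₂ m` (in `SDefs2`) is `Stark(K, m)`, the conditions
1-3 alone; `StarkRatios σ₂ m` is the assertion that the conditions 1-3 hold for the ratios
`exp (-2 ζ'(0, A) + 2 ζ'(0, B))`. We show that, for every `n ≠ (1)`, Q1 for all multiples of `n` is
equivalent to the conditions 1-3 for all multiples of `n`, and also to a condition on the ratios only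
for a sparse set of multiples of `n`.
-/

open NumberField IsDedekindDomain

namespace Pool.Agent.Results.MP_1ef7cf_nt.AllModuli

open Pool.Agent.StarkRQ

/-- Let `K ⊂ ℝ` be a real quadratic field with second embedding `σ₂`, let `n ≠ (1)` be an ideal, and
let `k` be a natural number. The following are equivalent.
(1) Q1, including the condition on the square roots, holds for all nonzero multiples `m` of `n`.
(2) `Stark(K, m)`, that is, the conditions 1-3, holds for all nonzero multiples `m` of `n`.
(3) For every nonzero multiple `m` of `n` with at least `k` prime divisors, each of them with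
exponent at least `k`, either `StarkRatios` holds for `m`, or there are at least two primes `q` not
dividing `m` such that `StarkRatios` holds for `m * q`, and the classes of these primes generate the
ray class group of modulus `m ∞₂`. -/
theorem result {K : Type*} [Field K] [NumberField K] [Algebra K ℝ]
    (hK : Module.finrank ℚ K = 2) (σ₂ : K →+* ℝ) (hσ : σ₂ ≠ algebraMap K ℝ)
    (n : Ideal (𝓞 K)) (hn : n ≠ ⊤) (k : ℕ) :
    List.TFAE [
      ∀ m : Ideal (𝓞 K), m ≠ ⊥ → n ∣ m → StarkTate σ₂ m,
      ∀ m : Ideal (𝓞 K), m ≠ ⊥ → n ∣ m → Stark σ₂ m,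
      ∀ m : Ideal (𝓞 K), m ≠ ⊥ → n ∣ m →
        k ≤ {v : HeightOneSpectrum (𝓞 K) | v.asIdeal ∣ m}.ncard →
        (∀ v : HeightOneSpectrum (𝓞 K), v.asIdeal ∣ m → v.asIdeal ^ k ∣ m) →
        StarkRatios σ₂ m ∨ Generated σ₂ (StarkRatios σ₂) m 1] := by
  tfae_have 1 → 2 := by
    intro h m hm hnm
    obtain ⟨H, Art, Z, ε, h1, h2, h3, -⟩ := h m hm hnm
    exact ⟨H, Art, Z, ε, h1, h2, h3⟩
  tfae_have 2 → 3 := by
    intro h m hm hnm _ _
    exact Or.inl (h m hm hnm).ratios
  tfae_have 3 → 1 := by
    intro h
    simp only [starkTate_iff]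
    refine Pool.Agent.STf.general2 hK hσ hn k fun m hm hnm hk hmv => ?_
    rcases h m hm hnm hk hmv with h1 | h1
    · exact Or.inl h1.ratioP
    · exact Or.inr (h1.genP.down le_rfl (fun _ hv => hv) fun q _ hq => hq.ratioP)
  tfae_finish

end Pool.Agent.Results.MP_1ef7cf_nt.AllModuli
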