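import Pool.Agent.Lib.MP_1ef7cf_nt_s.Fin
import Pool.Agent.Lib.MP_1ef7cf_nt_s.Easy
import Pool.Agent.Lib.MP_1ef7cf_nt.Bridge

/-!
# Automorphisms of `ℂ` and the Stark-Tate assertion

`StarkTate σ₂ m` (in `Pool.Agent.Lib.MP_1ef7cf_nt.SDefs`) is the assertion of Q1 for the real
quadratic field `K` and the modulus `m`. The conditions `Permuted σ₂ n` and `Translated σ₂ m` below
are about the complex numbers `exp (-2 ζ'(0, A))` and the field automorphisms of `ℂ` over `K` only: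
it is not assumed that these numbers are algebraic, nor that they have anything to do with the ray
class field.
-/

open NumberField IsDedekindDomain

namespace Pool.Agent.Results.MP_1ef7cf_nt.Automorphisms

open Pool.Agent.StarkRQ

variable {K : Type*} [Field K] [NumberField K]

/-- The natural map of the ray class groups sends the class `A'` modulo `m' ∞₂` to the class `A`
modulo `m ∞₂`: some fractional ideal prime to `m'` and to `m` lies in both. -/
def MapsTo (σ₂ : K →+* ℝ) {m' m : Ideal (𝓞 K)} (A' : RayClassGroup σ₂ m')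
    (A : RayClassGroup σ₂ m) : Prop :=
  ∃ (J' : PrimeTo m') (J : PrimeTo m), J'.val = J.val ∧ cls σ₂ m' J' = A' ∧ cls σ₂ m J = A

variable [Algebra K ℝ]

/-- The ray class field of modulus `m ∞₂` exists (Takagi's existence theorem; it is not in
Mathlib). -/
def HasRayClassField (σ₂ : K →+* ℝ) (m : Ideal (𝓞 K)) : Prop :=
  ∃ (H : IntermediateField K ℝ) (Art : RayClassGroup σ₂ m ≃* (H ≃ₐ[K] H)),
    IsRayClassField σ₂ m H Art

/-- For every automorphism `s` of `ℂ` over `K` there are permutations `p m` of the ray class groups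
modulo `m ∞₂`, where `m` runs through the nonzero multiples of `n`, such that
* `s (exp (-2 ζ'(0, A))) = exp (-2 ζ'(0, p m A))` for all classes `A` modulo `m ∞₂`, and
* the permutations are compatible with the natural maps of the ray class groups. -/
def Permuted (σ₂ : K →+* ℝ) (n : Ideal (𝓞 K)) : Prop :=
  ∃ Z : ∀ m : Ideal (𝓞 K), RayClassGroup σ₂ m → ℂ → ℂ,
    (∀ m : Ideal (𝓞 K), m ≠ ⊥ → n ∣ m → ∀ A, IsPartialZeta σ₂ m A (Z m A)) ∧
    ∀ s : ℂ ≃ₐ[K] ℂ, ∃ p : ∀ m : Ideal (𝓞 K), Equiv.Perm (RayClassGroup σ₂ m),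
      (∀ m : Ideal (𝓞 K), m ≠ ⊥ → n ∣ m → ∀ A,
        s (Complex.exp (-2 * deriv (Z m A) 0)) = Complex.exp (-2 * deriv (Z m (p m A)) 0)) ∧
      ∀ m m' : Ideal (𝓞 K), m' ≠ ⊥ → n ∣ m → m ∣ m' →
        ∀ (A' : RayClassGroup σ₂ m') (A : RayClassGroup σ₂ m),
          MapsTo σ₂ A' A → MapsTo σ₂ (p m' A') (p m A)

/-- Every automorphism `s` of `ℂ` over `K` acts on the numbers `exp (-2 ζ'(0, A))` of the ray classes
`A` modulo `m ∞₂` as the translation by some ray class `B`. -/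
def Translated (σ₂ : K →+* ℝ) (m : Ideal (𝓞 K)) : Prop :=
  ∃ Z : RayClassGroup σ₂ m → ℂ → ℂ, (∀ A, IsPartialZeta σ₂ m A (Z A)) ∧
    ∀ s : ℂ ≃ₐ[K] ℂ, ∃ B : RayClassGroup σ₂ m, ∀ A,
      s (Complex.exp (-2 * deriv (Z A) 0)) = Complex.exp (-2 * deriv (Z (A * B)) 0)

/-! ### The definitions used in the proof -/

lemma translated_iff {σ₂ : K →+* ℝ} {m : Ideal (𝓞 K)} (hK : Module.finrank ℚ K = 2)
    (hσ : σ₂ ≠ algebraMap K ℝ) (hm : m ≠ ⊥) (hm1 : m ≠ ⊤) :
    Translated σ₂ m ↔ Pool.Agent.STs.Tr σ₂ m := by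
  constructor
  · rintro ⟨Z, h1, h2⟩
    refine (Pool.Agent.STs.tr_iff h1).1 fun s hs => ?_
    exact h2 (AlgEquiv.ofRingEquiv (f := s) hs)
  · intro h
    have h1 : ∀ A : RayClassGroup σ₂ m, ∃ Z, IsPartialZeta σ₂ m A Z := fun A => by
      obtain ⟨Z, hZ, -⟩ := Pool.Agent.ST.exists_pz hK hσ hm hm1 A
      exact ⟨Z, hZ⟩
    choose Z hZ using h1
    refine ⟨Z, hZ, fun s => ?_⟩
    exact (Pool.Agent.STs.tr_iff hZ).2 h s.toRingEquiv (fun x => s.commutes x)

omit [Algebra K ℝ] in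
lemma mapsTo_iff {σ₂ : K →+* ℝ} {m m' : Ideal (𝓞 K)} (h : m' ≤ m) (A' : RayClassGroup σ₂ m')
    (A : RayClassGroup σ₂ m) : MapsTo σ₂ A' A ↔ Pool.Agent.ST.pr σ₂ h A' = A := by
  constructor
  · rintro ⟨J', J, h1, rfl, rfl⟩
    have h2 : (Pool.Agent.ST.inc h J' : Pool.Agent.ST.primeTo m) = J := Subtype.ext (Units.ext h1)
    have h3 := Pool.Agent.ST.pr_cls (σ₂ := σ₂) h J'
    rw [h2] at h3
    exact h3
  · rintro rfl
    obtain ⟨J', rfl⟩ := Pool.Agent.ST.cls_surjective (σ₂ := σ₂) m' A'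
    exact ⟨J', Pool.Agent.ST.inc h J', rfl, rfl, rfl⟩

lemma permC_of_permuted {σ₂ : K →+* ℝ} {n : Ideal (𝓞 K)} (h : Permuted σ₂ n) :
    Pool.Agent.STs.PermC σ₂ n := by
  obtain ⟨Z, hZ, h⟩ := h
  intro s hs
  obtain ⟨p, h1, h2⟩ := h (AlgEquiv.ofRingEquiv (f := s) hs)
  refine ⟨fun m => p m, fun m _ _ => (p m).bijective, fun m hm hnm A => ?_,
    fun m m' hle hm' hnm A' => ?_⟩
  · have h3 := h1 m hm hnm A
    rw [Pool.Agent.STs.exp_eq_ev (hZ m hm hnm A), Pool.Agent.STs.exp_eq_ev (hZ m hm hnm (p m A))] at h3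
    exact h3
  · exact (mapsTo_iff hle _ _).1
      (h2 m m' hm' hnm (Ideal.dvd_iff_le.2 hle) A' _ ((mapsTo_iff hle _ _).2 rfl))

lemma permuted_of_permC {σ₂ : K →+* ℝ} {n : Ideal (𝓞 K)} (hK : Module.finrank ℚ K = 2)
    (hσ : σ₂ ≠ algebraMap K ℝ) (hn : n ≠ ⊤) (h : Pool.Agent.STs.PermC σ₂ n) : Permuted σ₂ n := by
  classical
  have h1 : ∀ (m : Ideal (𝓞 K)) (A : RayClassGroup σ₂ m), ∃ Z : ℂ → ℂ,
      m ≠ ⊥ → n ∣ m → IsPartialZeta σ₂ m A Z := by
    intro m A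
    by_cases hm : m ≠ ⊥ ∧ n ∣ m
    · have hm1 : m ≠ ⊤ := by
        rintro rfl
        exact hn (top_le_iff.1 (Ideal.dvd_iff_le.1 hm.2))
      obtain ⟨Z, hZ, -⟩ := Pool.Agent.ST.exists_pz hK hσ hm.1 hm1 A
      exact ⟨Z, fun _ _ => hZ⟩
    · exact ⟨0, fun h2 h3 => absurd ⟨h2, h3⟩ hm⟩
  choose Z hZ using h1
  refine ⟨Z, fun m hm hnm A => hZ m A hm hnm, fun s => ?_⟩
  obtain ⟨p, h1, h2, h3⟩ := h s.toRingEquiv (fun x => s.commutes x)
  let p' : ∀ m : Ideal (𝓞 K), Equiv.Perm (RayClassGroup σ₂ m) := fun m =>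
    if hm : m ≠ ⊥ ∧ n ∣ m then Equiv.ofBijective (p m) (h1 m hm.1 hm.2) else Equiv.refl _
  have hp' : ∀ m : Ideal (𝓞 K), m ≠ ⊥ → n ∣ m → ∀ A, p' m A = p m A := by
    intro m hm hnm A
    simp only [p', dif_pos (show m ≠ ⊥ ∧ n ∣ m from ⟨hm, hnm⟩)]
    rfl
  refine ⟨p', fun m hm hnm A => ?_, fun m m' hm' hnm hmm' A' A hA => ?_⟩
  · rw [Pool.Agent.STs.exp_eq_ev (hZ m A hm hnm), Pool.Agent.STs.exp_eq_ev (hZ m (p' m A) hm hnm),
      hp' m hm hnm]
    exact h2 m hm hnm A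
  · have hle : m' ≤ m := Ideal.dvd_iff_le.1 hmm'
    have hm : m ≠ ⊥ := by
      rintro rfl
      exact hm' (le_bot_iff.1 hle)
    rw [mapsTo_iff hle] at hA ⊢
    rw [hp' m' hm' (hnm.trans hmm'), hp' m hm hnm, h3 m m' hle hm' hnm, hA]

/-! ### The main theorem -/

/-- Let `K ⊂ ℝ` be a real quadratic field with second embedding `σ₂`, and let `n ≠ (1)` be an ideal.
The following are equivalent.
1. Q1, including the condition on the square roots, holds for all nonzero multiples `m` of `n`.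
2. The ray class fields modulo `m ∞₂` exist (Takagi), and each automorphism of `ℂ` over `K` permutes
  the numbers `exp (-2 ζ'(0, A))` through compatible permutations of the ray class groups.
3. The ray class fields modulo `m ∞₂` exist, and for each `m` each automorphism of `ℂ` over `K` acts
  on the numbers `exp (-2 ζ'(0, A))` of the classes `A` modulo `m ∞₂` as a translation (no relation
  between the translations for different `m` is assumed). -/
theorem result {K : Type*} [Field K] [NumberField K] [Algebra K ℝ]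
    (hK : Module.finrank ℚ K = 2) (σ₂ : K →+* ℝ) (hσ : σ₂ ≠ algebraMap K ℝ)
    (n : Ideal (𝓞 K)) (hn : n ≠ ⊤) :
    List.TFAE [
      ∀ m : Ideal (𝓞 K), m ≠ ⊥ → n ∣ m → StarkTate σ₂ m,
      (∀ m : Ideal (𝓞 K), m ≠ ⊥ → n ∣ m → HasRayClassField σ₂ m) ∧ Permuted σ₂ n,
      ∀ m : Ideal (𝓞 K), m ≠ ⊥ → n ∣ m → HasRayClassField σ₂ m ∧ Translated σ₂ m] := by
  have hm1 : ∀ m : Ideal (𝓞 K), n ∣ m → m ≠ ⊤ := by
    rintro m hnm rfl
    exact hn (top_le_iff.1 (Ideal.dvd_iff_le.1 hnm))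
  have hx : (∀ m : Ideal (𝓞 K), m ≠ ⊥ → n ∣ m → HasRayClassField σ₂ m) → Pool.Agent.STs.Hx σ₂ n :=
    fun h => ⟨hK, hσ, hn, fun m hm hnm => by
      obtain ⟨H, Art, h3⟩ := h m hm hnm
      exact ⟨H, Art, (isRayClassField_iff σ₂ m H Art).1 h3⟩⟩
  tfae_have 1 → 2 := by
    intro h
    refine ⟨fun m hm hnm => ?_, ?_⟩
    · obtain ⟨H, Art, Z, ε, h1, -⟩ := h m hm hnm
      exact ⟨H, Art, h1⟩
    · exact permuted_of_permC hK hσ hn (Pool.Agent.STs.permC_of_starkTate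
        (fun m hm hnm => (starkTate_iff σ₂ m).1 (h m hm hnm)))
  tfae_have 2 → 3 := by
    rintro ⟨h1, h2⟩ m hm hnm
    exact ⟨h1 m hm hnm, (translated_iff hK hσ hm (hm1 m hnm)).2
      (Pool.Agent.STs.PermC.tr (hx h1) (permC_of_permuted h2) hm hnm)⟩
  tfae_have 3 → 1 := by
    intro h m hm hnm
    rw [starkTate_iff]
    exact Pool.Agent.STs.main (hx fun m hm hnm => (h m hm hnm).1)
      (fun m hm hnm => (translated_iff hK hσ hm (hm1 m hnm)).1 (h m hm hnm).2) m hm hnm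
  tfae_finish

end Pool.Agent.Results.MP_1ef7cf_nt.Automorphisms
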