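import Pool.Agent.Lib.MP_1ef7cf_nt_h.Fin

/-!
# Tate's form of Stark's conjecture for the extensions inside `K(d ^ (1 / 4), cos (2 π / n))`

Let `K ⊂ ℝ` be a real quadratic field, `√d ∈ K`. We prove the conditions 1-3 and the square root
condition for all extensions `L / K` with `L ⊂ K(d ^ (1 / 4), cos (2 π / n))`, `n` arbitrary, and all
moduli divisible by the primes above `2 d n`.
-/

open NumberField IsDedekindDomain IntermediateField

namespace Pool.Agent.Results.MP_1ef7cf_nt.CMGeneral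

open Pool.Agent.StarkRQ

/-- Let `K ⊂ ℝ` be a real quadratic field with second embedding `σ₂`, let `d`, `n` be natural numbers,
`d` not a square, `n ≠ 0`, such that `√d ∈ K`, and let `F = K(d ^ (1 / 4), cos (2 π / n))`. Let
`m ≠ 0` be an ideal which is divisible by all primes of `K` which contain `2 d n`, and let `H` be the
ray class field of modulus `m ∞₂`. For every field `L` with `K ⊂ L ⊂ H ∩ F`, units of `L` with the
conditions 1-3 for the modulus `m` exist, and the extensions of `K` generated by `L` and the square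
roots of these units are abelian. In particular, if `H ⊂ F` then Q1 holds for `(K, m)`. -/
theorem result {K : Type*} [Field K] [NumberField K] [Algebra K ℝ]
    (hK : Module.finrank ℚ K = 2) (σ₂ : K →+* ℝ) (hσ : σ₂ ≠ algebraMap K ℝ)
    (d n : ℕ) (hd : ¬ IsSquare d) (hn : n ≠ 0) (hdK : ∃ x : K, algebraMap K ℝ x = √(d : ℝ))
    (m : Ideal (𝓞 K)) (hm0 : m ≠ ⊥)
    (hm : ∀ v : HeightOneSpectrum (𝓞 K), (2 * d * n : 𝓞 K) ∈ v.asIdeal → v.asIdeal ∣ m)
    (H : IntermediateField K ℝ) (Art : RayClassGroup σ₂ m ≃* (H ≃ₐ[K] H))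
    (hH : IsRayClassField σ₂ m H Art) :
    (∀ L : IntermediateField K ℝ, L ≤ H →
      L ≤ K⟮√√(d : ℝ)⟯ ⊔ K⟮Real.cos (2 * Real.pi / n)⟯ → StarkTateIn σ₂ m L) ∧
    (H ≤ K⟮√√(d : ℝ)⟯ ⊔ K⟮Real.cos (2 * Real.pi / n)⟯ → StarkTate σ₂ m) := by
  have hA := (isRayClassField_iff σ₂ m H Art).1 hH
  obtain ⟨x, hx⟩ := hdK
  refine ⟨fun L hLH hL => Pool.Agent.STh.fin_general hK hσ hd hn hx hm0 hm hA hLH hL, fun hHF => ?_⟩
  exact Pool.Agent.STf.starkTate_of_in hm0 hA
    (Pool.Agent.STh.fin_general hK hσ hd hn hx hm0 hm hA le_rfl hHF)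

end Pool.Agent.Results.MP_1ef7cf_nt.CMGeneral
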