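import Pool.Agent.Lib.MP_1ef7cf_nt_t.U7
import Pool.Agent.Lib.MP_1ef7cf_nt_t.V5

/-!
# The Stark-Tate conjecture for real quadratic fields with a unit of norm `-1`

Let `K ⊂ ℝ` be a real quadratic field with a unit `e > 0` of norm `-1`, and let `m ≠ 0` be an ideal which is
divisible by all primes of `K` above `2`. We prove Tate's form of Stark's conjecture (the conditions 1-3 and the
square root condition) for the modulus `m` and all fields `K ⊂ L ⊂ K(√e, cos (2 π / 2 ^ k))`, `k` arbitrary, which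
are contained in the ray class field `H` of modulus `m ∞₂`. If only one prime `𝔭` of `K` is above `2`, and the
subgroup generated by its class has odd index in the class group, these `L` are all fields `K ⊂ L ⊂ H` whose degree
over `K` is a power of `2` and which are unramified outside `2`. There are cases in which `H` is such a field, so that
this is Q1 for `(K, m)`.
-/

open NumberField IsDedekindDomain IntermediateField

namespace Pool.Agent.Results.MP_1ef7cf_nt.CMTowers

open Pool.Agent.StarkRQ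

/-- Only one prime `𝔭` of `K` is above `2`, and the index of the subgroup generated by the class of `𝔭` in the class
group of `K` is odd. -/
def OneOddPrime (K : Type*) [Field K] [NumberField K] : Prop :=
  ∃ 𝔭 : HeightOneSpectrum (𝓞 K), (∀ v : HeightOneSpectrum (𝓞 K), (2 : 𝓞 K) ∈ v.asIdeal ↔ v = 𝔭) ∧
    Odd (Subgroup.zpowers
      (ClassGroup.mk0 ⟨𝔭.asIdeal, mem_nonZeroDivisors_of_ne_zero 𝔭.ne_bot⟩ : ClassGroup (𝓞 K))).index

/-- All nonzero prime ideals of `L` which do not contain `2` are unramified over `K`. -/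
def UnramifiedOutsideTwo {K : Type*} [Field K] [Algebra K ℝ] (L : IntermediateField K ℝ) : Prop :=
  ∀ (P : Ideal (𝓞 L)) [P.IsPrime], P ≠ ⊥ → (2 : 𝓞 L) ∉ P → Algebra.IsUnramifiedAt (𝓞 K) P

lemma unramAt {K : Type*} [Field K] [NumberField K] [Algebra K ℝ] {L : IntermediateField K ℝ}
    (h : UnramifiedOutsideTwo L) (v : HeightOneSpectrum (𝓞 K)) (hv : (2 : 𝓞 K) ∉ v.asIdeal) :
    Pool.Agent.STt.UnramAt L v := by
  intro P hP hPv
  refine h P ?_ ?_
  · rintro rfl
    apply v.ne_bot
    rw [← hPv, Ideal.under, Ideal.comap_bot_of_injective]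
    exact FaithfulSMul.algebraMap_injective _ _
  · intro h2
    apply hv
    rw [← hPv, Ideal.mem_comap, map_ofNat]
    exact h2

/-- Let `K ⊂ ℝ` be a real quadratic field with second embedding `σ₂`, and `e > 0` a unit of `K` of norm `-1`. Let
`m ≠ 0` be an ideal which is divisible by all primes of `K` above `2`, and `H` the ray class field of modulus `m ∞₂`.

For every field `L` with `K ⊂ L ⊂ H` such that
* `L ⊂ K(√e, cos (2 π / 2 ^ k))` for some `k`, or
* `K` satisfies `OneOddPrime`, and `L / K` is unramified outside `2` and its degree is a power of `2`,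

units of `L` with the conditions 1-3 for the modulus `m` exist, and the extensions of `K` generated by `L` and the
square roots of these units are abelian. If `H` is such a field, then Q1 holds for `(K, m)`.

If all prime divisors of `m` are above `2`, Q1 holds for `(K, m)` (including the existence of `H`) if the trace of `e`
is not divisible by `4`, and its absolute value is at most `3` or the ring of integers of `K` is principal; and if the
trace of `e` is `± 6` modulo `16` and the class number of `K` is `2`. -/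
theorem result {K : Type*} [Field K] [NumberField K] [Algebra K ℝ]
    (hK : Module.finrank ℚ K = 2) (σ₂ : K →+* ℝ) (hσ : σ₂ ≠ algebraMap K ℝ)
    (e : (𝓞 K)ˣ) (he : 0 < algebraMap K ℝ ((e : 𝓞 K) : K))
    (hN : Algebra.norm ℤ (e : 𝓞 K) = -1)
    (m : Ideal (𝓞 K)) (hm0 : m ≠ ⊥)
    (hm : ∀ v : HeightOneSpectrum (𝓞 K), (2 : 𝓞 K) ∈ v.asIdeal → v.asIdeal ∣ m) :
    (∀ (H : IntermediateField K ℝ) (Art : RayClassGroup σ₂ m ≃* (H ≃ₐ[K] H)),
      IsRayClassField σ₂ m H Art → ∀ L : IntermediateField K ℝ, L ≤ H →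
      ((∃ k : ℕ, L ≤ K⟮√(algebraMap K ℝ ((e : 𝓞 K) : K))⟯ ⊔ K⟮Real.cos (2 * Real.pi / 2 ^ k)⟯) ∨
        (OneOddPrime K ∧ UnramifiedOutsideTwo L ∧ ∃ a : ℕ, Module.finrank K L = 2 ^ a)) →
      StarkTateIn σ₂ m L ∧ (L = H → StarkTate σ₂ m)) ∧
    ((∀ v : HeightOneSpectrum (𝓞 K), v.asIdeal ∣ m → (2 : 𝓞 K) ∈ v.asIdeal) →
      ((¬ (4 : ℤ) ∣ Algebra.trace ℤ (𝓞 K) (e : 𝓞 K) ∧
          (|Algebra.trace ℤ (𝓞 K) (e : 𝓞 K)| ≤ 3 ∨ IsPrincipalIdealRing (𝓞 K))) ∨
        ((Algebra.trace ℤ (𝓞 K) (e : 𝓞 K) % 16 = 6 ∨ Algebra.trace ℤ (𝓞 K) (e : 𝓞 K) % 16 = 10) ∧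
          Nat.card (ClassGroup (𝓞 K)) = 2)) →
      StarkTate σ₂ m) := by
  refine ⟨fun H Art hH L hLH hL => ?_, fun hm' hT => ?_⟩
  · have hA := (isRayClassField_iff σ₂ m H Art).1 hH
    have key : StarkTateIn σ₂ m L := by
      rcases hL with ⟨k, hk⟩ | ⟨⟨𝔭, h𝔭, hodd⟩, hun, a, ha⟩
      · exact Pool.Agent.STt.fin_sub hK hσ he hN hm0 hm hA hLH k hk
      · exact Pool.Agent.STt.fin_two hK hσ he hN hm0 hm (fun v => (h𝔭 v).1) hodd hA hLH ha
          (unramAt hun)
    refine ⟨key, ?_⟩
    rintro rfl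
    exact Pool.Agent.STf.starkTate_of_in hm0 hA key
  · exact Pool.Agent.STt.fin_q hK hσ he hN hT hm0 fun v => ⟨hm' v, hm v⟩

end Pool.Agent.Results.MP_1ef7cf_nt.CMTowers
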